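import Pool.Agent.KIR.S1b.FIL

/-!
# KIR S1b (helper2): decomposition along minimal primes
-/
set_option autoImplicit false
namespace Pool.Agent.KIR
open MvPolynomial Filter Topology

namespace S1b

variable {σ ρ : Type}

/-- a level where the normalized series is bounded exists -/
theorem has_of_bdd (h1 : S_LVL) [Fintype σ] [DecidableEq σ] [Fintype ρ] (W : σ → ρ → ℤ)
    (p : ρ → ℤ) (hp : Pos W p) (I : Ideal (S σ)) (hI : TG W I) (c : ℕ) (B : ℝ)
    (hB : ∀ᶠ q in 𝓝[<] (1 : ℝ), G c (wt W p) I q ≤ B) : Has c (wt W p) I := by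
  obtain ⟨ha, hb⟩ := h1 σ ρ W p hp I hI
  by_cases hI' : I = ⊤
  · exact (hb hI' c).1
  obtain ⟨k, hk, hpos, hlt, _⟩ := ha hI'
  rcases lt_trichotomy c k with h | h | h
  · exact (hlt c h).1
  · rw [h]
    exact hk
  · exfalso
    obtain ⟨L, hL⟩ := hk
    have hcl : cl k (wt W p) I = L := hL.limUnder_eq
    rw [hcl] at hpos
    -- (1 - q) ^ (c - k) * G c = G k
    have h2 : Tendsto (fun q : ℝ => (1 - q) ^ (c - k) * B) (𝓝[<] 1) (𝓝 0) := by
      have h3 : Tendsto (fun q : ℝ => (1 - q) ^ (c - k) * B) (𝓝 1) (𝓝 ((1 - 1) ^ (c - k) * B)) := by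
        refine Continuous.tendsto ?_ 1
        fun_prop
      rw [sub_self, zero_pow (by omega), zero_mul] at h3
      exact h3.mono_left nhdsWithin_le_nhds
    have h4 : ∀ᶠ q in 𝓝[<] (1 : ℝ), G k (wt W p) I q ≤ (1 - q) ^ (c - k) * B := by
      filter_upwards [hB, self_mem_nhdsWithin] with q hq hq1
      have hq1' : 0 < 1 - q := sub_pos.2 hq1
      have h5 : G k (wt W p) I q = (1 - q) ^ (c - k) * G c (wt W p) I q := by
        unfold G
        have h6 : (1 - q) ^ c = (1 - q) ^ (c - k) * (1 - q) ^ k := by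
          rw [← pow_add]
          congr 1
          omega
        rw [h6]
        field_simp
      rw [h5]
      exact mul_le_mul_of_nonneg_left hq (by positivity)
    have h7 := le_of_tendsto_of_tendsto hL h2 h4
    linarith

theorem prod_le_prime (Q : Ideal (S σ)) [hQ : Q.IsPrime] :
    ∀ l : List (Ideal (S σ)), l.prod ≤ Q → ∃ P ∈ l, P ≤ Q
  | [], h => by
    exfalso
    rw [List.prod_nil, Ideal.one_eq_top] at h
    exact hQ.ne_top (top_le_iff.1 h)
  | P :: l, h => by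
    rw [List.prod_cons, hQ.mul_le] at h
    rcases h with h | h
    · exact ⟨P, List.mem_cons_self, h⟩
    · obtain ⟨P', h1, h2⟩ := prod_le_prime Q l h
      exact ⟨P', List.mem_cons_of_mem _ h1, h2⟩

theorem sum_filter {α : Type*} (P : α → Prop) [DecidablePred P] (F : α → ℝ) :
    ∀ l : List α, (∀ x ∈ l, ¬ P x → F x = 0) → (l.map F).sum = ((l.filter fun x => P x).map F).sum
  | [], _ => by simp
  | a :: l, h => by
    have ih := sum_filter P F l fun x hx => h x (List.mem_cons_of_mem _ hx)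
    by_cases ha : P a
    · rw [List.filter_cons_of_pos (by simpa using ha), List.map_cons, List.sum_cons, List.map_cons,
        List.sum_cons, ih]
    · rw [List.filter_cons_of_neg (by simpa using ha), List.map_cons, List.sum_cons, ih,
        h a List.mem_cons_self ha, zero_add]

end S1b

open S1b in
theorem t_DEC (h1 : S_LVL) (h2 : S_STRICT) : S_DEC := by
  classical
  intro σ ρ _ _ _ W J hJ _
  obtain ⟨L, hL, hprod, hsum⟩ := fil W J hJ
  refine ⟨(L.map Prod.fst).filter fun Q => Q ∈ J.minimalPrimes, ?_, ?_⟩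
  · intro Q hQ
    rw [List.mem_filter, List.mem_map] at hQ
    obtain ⟨⟨x, hx, rfl⟩, hQ⟩ := hQ
    exact ⟨by simpa using hQ, (hL x hx).2.1⟩
  intro p hp c hc
  obtain ⟨w, hw⟩ : ∃ w, w = wt W p := ⟨_, rfl⟩
  have hwpos : ∀ s, 0 < w s := fun s => hw ▸ Base.wt_pos W p hp s
  obtain ⟨A, hA⟩ : ∃ A : ℝ, A = ∏ s, (w s : ℝ) := ⟨_, rfl⟩
  have hA0 : 0 ≤ A := by
    rw [hA]
    exact Finset.prod_nonneg fun s _ => by positivity
  -- the identity for the normalized series
  have hG : ∀ q : ℝ, 0 < q → q < 1 →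
      G c w J q = (L.map fun x => q ^ (x.2 p) * G c w x.1 q).sum := by
    intro q hq0 hq1
    have h3 := hsum p hp q hq0 hq1
    rw [← hw] at h3
    unfold G
    rw [h3, ← hA]
    have h4 : (L.map fun x => q ^ (x.2 p) * (A * (1 - q) ^ Fintype.card σ * Hs w x.1 q / (1 - q) ^ c)) =
        L.map fun x => (A * (1 - q) ^ Fintype.card σ / (1 - q) ^ c) * (q ^ (x.2 p) * Hs w x.1 q) := by
      refine List.map_congr_left fun x _ => ?_
      ring
    rw [h4, List.sum_map_mul_left]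
    ring
  have hGnn : ∀ (I : Ideal (S σ)) (q : ℝ), 0 < q → q < 1 → 0 ≤ G c w I q := by
    intro I q hq0 hq1
    unfold G
    rw [← hA]
    have := Base.Hs_nonneg w I hq0.le
    have : 0 < 1 - q := sub_pos.2 hq1
    positivity
  have hmem : ∀ᶠ q in 𝓝[<] (1 : ℝ), (1 : ℝ) / 2 < q ∧ q < 1 := by
    have h3 : ∀ᶠ q in 𝓝[<] (1 : ℝ), (1 : ℝ) / 2 < q :=
      nhdsWithin_le_nhds (lt_mem_nhds (by norm_num))
    filter_upwards [h3, self_mem_nhdsWithin] with q h4 h5
    exact ⟨h4, h5⟩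
  -- every member has a limit
  have hall : ∀ x ∈ L, Has c w x.1 := by
    intro x hx
    obtain ⟨l, hl⟩ := hc
    rw [← hw] at hl
    have h3 : ∀ᶠ q in 𝓝[<] (1 : ℝ), G c w J q < l + 1 :=
      hl (gt_mem_nhds (by linarith))
    have h4 : ∀ᶠ q in 𝓝[<] (1 : ℝ), G c w x.1 q ≤ 2 ^ (x.2 p) * (l + 1) := by
      filter_upwards [h3, hmem] with q hq hq'
      have hq0 : 0 < q := by linarith [hq'.1]
      have h5 : q ^ (x.2 p) * G c w x.1 q ≤ G c w J q := by
        rw [hG q hq0 hq'.2]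
        refine List.single_le_sum ?_ _ (List.mem_map.2 ⟨x, hx, rfl⟩)
        intro y hy
        obtain ⟨z, _, rfl⟩ := List.mem_map.1 hy
        have := hGnn z.1 q hq0 hq'.2
        positivity
      have h6 : (1 : ℝ) ≤ 2 ^ (x.2 p) * q ^ (x.2 p) := by
        rw [← mul_pow]
        exact one_le_pow₀ (by linarith [hq'.1])
      have h7 := hGnn x.1 q hq0 hq'.2
      calc G c w x.1 q = 1 * G c w x.1 q := (one_mul _).symm
        _ ≤ (2 ^ (x.2 p) * q ^ (x.2 p)) * G c w x.1 q := mul_le_mul_of_nonneg_right h6 h7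
        _ = 2 ^ (x.2 p) * (q ^ (x.2 p) * G c w x.1 q) := by ring
        _ ≤ 2 ^ (x.2 p) * (l + 1) := mul_le_mul_of_nonneg_left (h5.trans hq.le) (by positivity)
    rw [hw] at h4 ⊢
    exact has_of_bdd h1 W p hp x.1 (hL x hx).2.1 c _ h4
  -- the members that are not minimal have class 0
  have hzero : ∀ x ∈ L, x.1 ∉ J.minimalPrimes → cl c w x.1 = 0 := by
    intro x hx hxm
    have hxp : x.1.IsPrime := (hL x hx).1
    obtain ⟨Q, hQ, hQx⟩ := Ideal.exists_minimalPrimes_le (hL x hx).2.2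
    have hQp : Q.IsPrime := hQ.1.1
    obtain ⟨P, hP, hPQ⟩ := prod_le_prime Q (L.map Prod.fst) (hprod.trans hQ.1.2)
    obtain ⟨y, hy, rfl⟩ := List.mem_map.1 hP
    have hyQ : Q ≤ y.1 := hQ.2 ⟨(hL y hy).1, (hL y hy).2.2⟩ hPQ
    have hyQ' : y.1 = Q := le_antisymm hPQ hyQ
    have hQne : Q ≠ x.1 := fun h => hxm (h ▸ hQ)
    have hQh : Has c w Q := hyQ' ▸ hall y hy
    have hQt : TG W Q := hyQ' ▸ (hL y hy).2.1
    rw [hw] at hQh ⊢
    exact (h2 σ ρ W Q x.1 p hp hQp hQt (hL x hx).2.1 hQx hQne c hQh).2.2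
  have hlim : cl c w J = (L.map fun x => cl c w x.1).sum := by
    have h3 : Tendsto (fun q : ℝ => (L.map fun x => q ^ (x.2 p) * G c w x.1 q).sum) (𝓝[<] 1)
        (𝓝 (L.map fun x => cl c w x.1).sum) := by
      refine tendsto_list_sum L fun x hx => ?_
      obtain ⟨l, hl⟩ := hall x hx
      have h4 : cl c w x.1 = l := hl.limUnder_eq
      rw [h4]
      have h5 : Tendsto (fun q : ℝ => q ^ (x.2 p)) (𝓝[<] 1) (𝓝 1) := by
        have h6 : Tendsto (fun q : ℝ => q ^ (x.2 p)) (𝓝 1) (𝓝 (1 ^ (x.2 p))) :=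
          (continuous_pow _).tendsto 1
        rw [one_pow] at h6
        exact h6.mono_left nhdsWithin_le_nhds
      have h7 := h5.mul hl
      rw [one_mul] at h7
      exact h7
    refine Tendsto.limUnder_eq (h3.congr' ?_)
    filter_upwards [hmem] with q hq
    exact (hG q (by linarith [hq.1]) hq.2).symm
  refine ⟨?_, ?_⟩
  · intro Q hQ
    rw [List.mem_filter, List.mem_map] at hQ
    obtain ⟨⟨x, hx, rfl⟩, _⟩ := hQ
    rw [← hw]
    exact hall x hx
  · rw [← hw, hlim]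
    have h3 : (L.map fun x => cl c w x.1) = (L.map Prod.fst).map fun Q => cl c w Q := by
      rw [List.map_map]
      rfl
    rw [h3]
    refine sum_filter (fun Q => Q ∈ J.minimalPrimes) (fun Q => cl c w Q) _ ?_
    intro Q hQ hQm
    obtain ⟨x, hx, rfl⟩ := List.mem_map.1 hQ
    exact hzero x hx hQm

end Pool.Agent.KIR
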