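import Pool.Agent.KIR.Defs

/-!
# KIR S1b (helper2): minimal primes of a stable ideal are stable
-/
set_option autoImplicit false
namespace Pool.Agent.KIR
open MvPolynomial

namespace S1b

variable {σ : Type}

theorem eval_op (g : σ → Option σ) (t : ℂ) (f : S σ) :
    (op g f).eval (C t) = sub g t f := by
  have h : ((Polynomial.evalRingHom (C t : S σ)).comp (op g : S σ →ₐ[ℂ] Polynomial (S σ)).toRingHom) =
      (sub g t).toRingHom := by
    refine MvPolynomial.ringHom_ext (fun r => ?_) (fun s => ?_)
    · show ((op g) (C r)).eval (C t) = sub g t (C r)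
      have h1 : op g (C r) = Polynomial.C (C r) := by
        have := (op g).commutes r
        exact this
      have h2 : sub g t (C r) = C r := (sub g t).commutes r
      rw [h1, h2, Polynomial.eval_C]
    · show ((op g) (X s)).eval (C t) = sub g t (X s)
      unfold op sub
      rw [aeval_X, aeval_X, Polynomial.eval_add, Polynomial.eval_C, Polynomial.eval_mul,
        Polynomial.eval_X]
      congr 2
      cases g s with
      | none => simp
      | some s' => simp
  exact RingHom.congr_fun h f

theorem sub_X (g : σ → Option σ) (t : ℂ) (s : σ) :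
    sub g t (X s) = X s + C t * ((g s).elim 0 (fun s' => X s')) := by
  unfold sub
  rw [aeval_X]

theorem sub_sub (g : σ → Option σ) (hg : Flat g) (t r : ℂ) (f : S σ) :
    sub g t (sub g r f) = sub g (t + r) f := by
  have h : (sub g t).comp (sub g r) = sub g (t + r) := by
    refine MvPolynomial.algHom_ext fun s => ?_
    rw [AlgHom.comp_apply, sub_X, sub_X, map_add, map_mul, sub_X]
    have h2 : sub g t (C r) = C r := (sub g t).commutes r
    rw [h2]
    cases hs : g s with
    | none => simp
    | some s' =>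
      simp only [Option.elim_some]
      rw [sub_X, hg s s' hs, map_add]
      simp only [Option.elim_none]
      ring
  exact DFunLike.congr_fun h f

theorem sub_zero' (g : σ → Option σ) (f : S σ) : sub g 0 f = f := by
  have h : sub g 0 = AlgHom.id ℂ (S σ) := by
    refine MvPolynomial.algHom_ext fun s => ?_
    rw [sub_X, map_zero, zero_mul, add_zero]
    rfl
  rw [h]
  rfl

/-- evaluation of a stable ideal -/
theorem sub_mem {g : σ → Option σ} {I : Ideal (S σ)} (h : Stab g I) (t : ℂ) {f : S σ} (hf : f ∈ I) :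
    sub g t f ∈ I := by
  rw [← eval_op, Polynomial.eval_eq_sum]
  exact Ideal.sum_mem _ fun k _ => I.mul_mem_right _ (h f hf k)

theorem stab_of {g : σ → Option σ} {Q : Ideal (S σ)} [hQ : Q.IsPrime]
    (h : ∀ t : ℂ, ∀ f ∈ Q, sub g t f ∈ Q) : Stab g Q := by
  intro f hf k
  obtain ⟨P, hP⟩ : ∃ P : Polynomial (S σ ⧸ Q), P = (op g f).map (Ideal.Quotient.mk Q) := ⟨_, rfl⟩
  have h1 : P = 0 := by
    refine Polynomial.eq_zero_of_infinite_isRoot P ?_
    have h2 : Function.Injective fun t : ℂ => (algebraMap ℂ (S σ ⧸ Q)) t :=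
      (algebraMap ℂ (S σ ⧸ Q)).injective
    refine (Set.infinite_range_of_injective h2).mono ?_
    rintro _ ⟨t, rfl⟩
    show P.eval (algebraMap ℂ (S σ ⧸ Q) t) = 0
    have h3 : algebraMap ℂ (S σ ⧸ Q) t = Ideal.Quotient.mk Q (C t) := rfl
    rw [h3, hP, Polynomial.eval_map, Polynomial.eval₂_at_apply, eval_op]
    exact Ideal.Quotient.eq_zero_iff_mem.2 (h t f hf)
  have h4 : P.coeff k = 0 := by rw [h1, Polynomial.coeff_zero]
  rw [hP, Polynomial.coeff_map] at h4
  exact Ideal.Quotient.eq_zero_iff_mem.1 h4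

theorem comap_mem {g : σ → Option σ} (hg : Flat g) {J Q : Ideal (S σ)} (hJ : Stab g J)
    (hQ : Q ∈ J.minimalPrimes) (t : ℂ) : Q.comap (sub g t) ∈ J.minimalPrimes := by
  have hc : ∀ (I : Ideal (S σ)) (t r : ℂ), (I.comap (sub g t)).comap (sub g r) = I.comap (sub g (t + r)) := by
    intro I t r
    ext f
    rw [Ideal.mem_comap, Ideal.mem_comap, Ideal.mem_comap, sub_sub g hg]
  have h0 : ∀ I : Ideal (S σ), I.comap (sub g 0) = I := by
    intro I
    ext f
    rw [Ideal.mem_comap, sub_zero']
  have hle : ∀ (I : Ideal (S σ)), J ≤ I → ∀ r, J ≤ I.comap (sub g r) := by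
    intro I hI r f hf
    rw [Ideal.mem_comap]
    exact hI (sub_mem hJ r hf)
  have hQp : Q.IsPrime := hQ.1.1
  refine ⟨⟨Ideal.comap_isPrime _ _, hle Q hQ.1.2 t⟩, ?_⟩
  rintro P ⟨hP, hJP⟩ hPQ
  have h1 : P.comap (sub g (-t)) ≤ Q := by
    have h2 := Ideal.comap_mono (f := sub g (-t)) hPQ
    rw [hc, add_neg_cancel, h0] at h2
    exact h2
  have h3 : Q ≤ P.comap (sub g (-t)) := hQ.2 ⟨Ideal.comap_isPrime _ _, hle P hJP (-t)⟩ h1
  have h4 := Ideal.comap_mono (f := sub g t) h3
  rw [hc, neg_add_cancel, h0] at h4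
  exact h4

end S1b

open S1b in
theorem t_MIN : S_MIN := by
  intro σ _ _ g J Q hg hJ hQ
  have hc : ∀ (I : Ideal (S σ)) (t r : ℂ), (I.comap (sub g t)).comap (sub g r) = I.comap (sub g (t + r)) := by
    intro I t r
    ext f
    rw [Ideal.mem_comap, Ideal.mem_comap, Ideal.mem_comap, sub_sub g hg]
  have h0 : ∀ I : Ideal (S σ), I.comap (sub g 0) = I := by
    intro I
    ext f
    rw [Ideal.mem_comap, sub_zero']
  obtain ⟨H, hH⟩ : ∃ H : AddSubgroup ℂ, ∀ t, t ∈ H ↔ Q.comap (sub g t) = Q := by
    refine ⟨{ carrier := {t | Q.comap (sub g t) = Q}, add_mem' := ?_, zero_mem' := h0 Q,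
              neg_mem' := ?_ }, fun t => Iff.rfl⟩
    · intro t r ht hr
      show Q.comap (sub g (t + r)) = Q
      rw [← hc, show Q.comap (sub g t) = Q from ht]
      exact hr
    · intro t ht
      show Q.comap (sub g (-t)) = Q
      have h1 : (Q.comap (sub g t)).comap (sub g (-t)) = Q := by
        rw [hc, add_neg_cancel, h0]
      rwa [show Q.comap (sub g t) = Q from ht] at h1
  have hfin : Finite (ℂ ⧸ H) := by
    have : Finite J.minimalPrimes := (J.finite_minimalPrimes_of_isNoetherianRing (S σ)).to_subtype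
    have hq : ∀ t r : ℂ, Q.comap (sub g t) = Q.comap (sub g r) ↔ (t : ℂ ⧸ H) = (r : ℂ ⧸ H) := by
      intro t r
      rw [QuotientAddGroup.eq, hH]
      constructor
      · intro h
        have h1 := congrArg (fun I : Ideal (S σ) => I.comap (sub g (-t))) h
        simp only [hc] at h1
        rw [add_neg_cancel, h0] at h1
        rw [neg_add_eq_sub, sub_eq_add_neg]
        exact h1.symm
      · intro h
        have h1 := congrArg (fun I : Ideal (S σ) => I.comap (sub g t)) h
        simp only [hc] at h1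
        rw [neg_add_cancel_comm] at h1
        exact h1.symm
    refine Finite.of_injective (fun x : ℂ ⧸ H => (⟨Q.comap (sub g x.out), comap_mem hg hJ hQ _⟩ :
      J.minimalPrimes)) ?_
    intro x y hxy
    have h1 := congrArg Subtype.val hxy
    have h2 := (hq _ _).1 h1
    rwa [QuotientAddGroup.out_eq', QuotientAddGroup.out_eq'] at h2
  have hidx : H.index ≠ 0 := AddSubgroup.index_ne_zero_of_finite
  have hall : ∀ t : ℂ, Q.comap (sub g t) = Q := by
    intro t
    rw [← hH]
    have h1 := H.nsmul_index_mem (t / H.index)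
    rw [nsmul_eq_mul, mul_div_cancel₀ _ (Nat.cast_ne_zero.2 hidx)] at h1
    exact h1
  have hQp : Q.IsPrime := hQ.1.1
  refine stab_of fun t f hf => ?_
  have h1 := hall t
  have h2 : f ∈ Q.comap (sub g t) := by rw [h1]; exact hf
  exact h2

end Pool.Agent.KIR
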