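import Pool.Agent.KIR.Base

/-!
# KIR S1b (helper2): the filtration of a torus graded ideal
-/
set_option autoImplicit false
namespace Pool.Agent.KIR
open MvPolynomial Filter Topology

namespace S1b

variable {σ ρ : Type}

/-- the weights in a linearly ordered group -/
noncomputable def Wl [Fintype ρ] (W : σ → (ρ → ℤ)) (s : σ) : Lex (Fin (Fintype.card ρ) → ℤ) :=
  toLex fun i => W s ((Fintype.equivFin ρ).symm i)

noncomputable def tl [Fintype ρ] (d : ρ → ℤ) : Lex (Fin (Fintype.card ρ) → ℤ) :=
  toLex fun i => d ((Fintype.equivFin ρ).symm i)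

theorem tl_inj [Fintype ρ] {d d' : ρ → ℤ} (h : tl d = tl d') : d = d' := by
  have h1 : (fun i => d ((Fintype.equivFin ρ).symm i)) = fun i => d' ((Fintype.equivFin ρ).symm i) :=
    toLex.injective h
  funext r
  have h2 := congrFun h1 (Fintype.equivFin ρ r)
  simpa using h2

theorem tl_add [Fintype ρ] (d d' : ρ → ℤ) : tl (d + d') = tl d + tl d' := rfl

theorem tl_surj [Fintype ρ] (e : Lex (Fin (Fintype.card ρ) → ℤ)) : ∃ d, tl (ρ := ρ) d = e := by
  refine ⟨fun r => ofLex e (Fintype.equivFin ρ r), ?_⟩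
  apply ofLex.injective
  funext i
  show ofLex e (Fintype.equivFin ρ ((Fintype.equivFin ρ).symm i)) = ofLex e i
  rw [Equiv.apply_symm_apply]

theorem tl_zero [Fintype ρ] : tl (0 : ρ → ℤ) = 0 := rfl

theorem weight_Wl [Fintype ρ] (W : σ → (ρ → ℤ)) (m : σ →₀ ℕ) :
    Finsupp.weight (Wl W) m = tl (Finsupp.weight W m) := by
  induction m using Finsupp.induction_linear with
  | zero => rw [map_zero, map_zero, tl_zero]
  | add a b ha hb => rw [map_add, map_add, ha, hb, tl_add]
  | single s n =>
    rw [Finsupp.weight_single, Finsupp.weight_single]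
    rfl

theorem comp_Wl [Fintype ρ] (W : σ → (ρ → ℤ)) (d : ρ → ℤ) (f : S σ) :
    weightedHomogeneousComponent (Wl W) (tl d) f = weightedHomogeneousComponent W d f := by
  classical
  ext m
  rw [coeff_weightedHomogeneousComponent, coeff_weightedHomogeneousComponent, weight_Wl]
  by_cases h : Finsupp.weight W m = d
  · rw [if_pos h, if_pos (by rw [h])]
  · rw [if_neg h, if_neg fun h' => h (tl_inj h')]

theorem hom_Wl [Fintype ρ] (W : σ → (ρ → ℤ)) (d : ρ → ℤ) (f : S σ)
    (hf : IsWeightedHomogeneous (Wl W) f (tl d)) : IsWeightedHomogeneous W f d := by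
  intro m hm
  have h := hf hm
  rw [weight_Wl] at h
  exact tl_inj h

/-- a graded proper ideal that is not prime has homogeneous witnesses (ordered group) -/
theorem witness' {M : Type} [AddCommGroup M] [LinearOrder M] [IsOrderedAddMonoid M] (V : σ → M)
    (J : Ideal (S σ)) (hJ : ∀ f ∈ J, ∀ d : M, weightedHomogeneousComponent V d f ∈ J) (ht : J ≠ ⊤)
    (hp : ¬ J.IsPrime) : ∃ (d : M) (f g : S σ), IsWeightedHomogeneous V f d ∧ f ∉ J ∧ g ∉ J ∧
      g * f ∈ J := by
  by_contra hcon
  push Not at hcon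
  refine hp ?_
  let _ : GradedAlgebra (weightedHomogeneousSubmodule ℂ V) := weightedGradedAlgebra ℂ V
  refine Ideal.IsHomogeneous.isPrime_of_homogeneous_mem_or_mem
    (𝒜 := weightedHomogeneousSubmodule ℂ V) ?_ ht ?_
  · intro i f hf
    have h1 : ((DirectSum.decompose (weightedHomogeneousSubmodule ℂ V) f i :
        weightedHomogeneousSubmodule ℂ V i) : S σ) =
        weightedHomogeneousComponent V i f :=
      weightedDecomposition.decompose'_apply ℂ V f i
    rw [h1]
    exact hJ f hf i
  · intro x y hx hy hxy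
    by_contra h
    push Not at h
    obtain ⟨i, hi⟩ := hx
    refine hcon i x y hi h.1 h.2 ?_
    rw [mul_comm]
    exact hxy

/-- a graded proper ideal that is not prime has homogeneous witnesses -/
theorem witness [Fintype ρ] (W : σ → (ρ → ℤ)) (J : Ideal (S σ)) (hJ : TG W J) (ht : J ≠ ⊤)
    (hp : ¬ J.IsPrime) : ∃ (d : ρ → ℤ) (f g : S σ), IsWeightedHomogeneous W f d ∧ f ∉ J ∧ g ∉ J ∧
      g * f ∈ J := by
  obtain ⟨i, f, g, hf, h1, h2, h3⟩ := witness' (Wl W) J (fun f hf i => by
    obtain ⟨d, rfl⟩ := tl_surj (ρ := ρ) i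
    have h := comp_Wl W d f
    have h' := hJ f hf d
    rw [← h] at h'
    exact h') ht hp
  obtain ⟨d, rfl⟩ := tl_surj (ρ := ρ) i
  exact ⟨d, f, g, hom_Wl W d f hf, h1, h2, h3⟩

/-- components of a product with a homogeneous element -/
theorem comp_mulW (W : σ → (ρ → ℤ)) (f g : S σ) (e a : ρ → ℤ)
    (hf : IsWeightedHomogeneous W f e) :
    weightedHomogeneousComponent W a (g * f) = weightedHomogeneousComponent W (a - e) g * f := by
  classical
  have h1 : ∀ b : ρ → ℤ, weightedHomogeneousComponent W a (weightedHomogeneousComponent W b g * f) =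
      if b + e = a then weightedHomogeneousComponent W b g * f else 0 := by
    intro b
    have h2 : IsWeightedHomogeneous W (weightedHomogeneousComponent W b g * f) (b + e) :=
      (weightedHomogeneousComponent_isWeightedHomogeneous b g).mul hf
    by_cases h : b + e = a
    · rw [if_pos h, ← h]
      exact weightedHomogeneousComponent_eq_self h2
    · rw [if_neg h]
      exact h2.weightedHomogeneousComponent_ne a fun h' => h h'.symm
  have h3 : (Function.support fun b => weightedHomogeneousComponent W b g).Finite :=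
    weightedHomogeneousComponent_finsupp g
  have h4 : g = ∑ b ∈ h3.toFinset, weightedHomogeneousComponent W b g := by
    rw [← finsum_eq_sum _ h3]
    exact (finsum_weightedHomogeneousComponent W g).symm
  have h5 : weightedHomogeneousComponent W a (g * f) =
      ∑ b ∈ h3.toFinset, if b + e = a then weightedHomogeneousComponent W b g * f else 0 := by
    conv_lhs => rw [h4]
    rw [Finset.sum_mul, map_sum]
    exact Finset.sum_congr rfl fun b _ => h1 b
  rw [h5, Finset.sum_eq_single (a - e)]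
  · rw [if_pos (by rw [sub_add_cancel])]
  · intro b _ hb
    rw [if_neg fun h => hb (by rw [← h, add_sub_cancel_right])]
  · intro hb
    rw [if_pos (by rw [sub_add_cancel])]
    rw [Set.Finite.mem_toFinset, Function.mem_support, not_not] at hb
    rw [hb, zero_mul]

theorem TG_sup (W : σ → (ρ → ℤ)) {I : Ideal (S σ)} (hI : TG W I) {f : S σ} {e : ρ → ℤ}
    (hf : IsWeightedHomogeneous W f e) : TG W (I ⊔ Ideal.span {f}) := by
  intro h hh a
  obtain ⟨i, hi, j, hj, rfl⟩ := Submodule.mem_sup.1 hh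
  obtain ⟨g, rfl⟩ := Ideal.mem_span_singleton'.1 hj
  rw [map_add, comp_mulW W f g e a hf]
  exact Ideal.add_mem _ (Ideal.mem_sup_left (hI i hi a))
    (Ideal.mem_sup_right (Ideal.mul_mem_left _ _ (Ideal.mem_span_singleton_self f)))

theorem TG_colon (W : σ → (ρ → ℤ)) {I : Ideal (S σ)} (hI : TG W I) {f : S σ} {e : ρ → ℤ}
    (hf : IsWeightedHomogeneous W f e) : TG W (I.colon {f}) := by
  intro g hg a
  rw [Base.mem_colon] at hg ⊢
  have h1 := hI _ hg (a + e)
  rw [comp_mulW W f g e (a + e) hf, add_sub_cancel_right] at h1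
  exact h1

theorem hf_top (w : σ → ℕ) (a : ℕ) : hf w (⊤ : Ideal (S σ)) a = 0 := by
  unfold hf
  have h : (weightedHomogeneousSubmodule ℂ w a).map
      (Ideal.Quotient.mkₐ ℂ (⊤ : Ideal (S σ))).toLinearMap = ⊥ := by
    rw [eq_bot_iff]
    rintro _ ⟨x, _, rfl⟩
    rw [Submodule.mem_bot]
    exact Ideal.Quotient.eq_zero_iff_mem.2 trivial
  rw [h, finrank_bot]

theorem Hs_top (w : σ → ℕ) (q : ℝ) : Hs w (⊤ : Ideal (S σ)) q = 0 := by
  unfold Hs
  simp [hf_top]

/-- **the filtration** -/
theorem fil [Fintype σ] [DecidableEq σ] [Fintype ρ] (W : σ → (ρ → ℤ)) (J : Ideal (S σ))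
    (hJ : TG W J) : ∃ L : List (Ideal (S σ) × ((ρ → ℤ) → ℕ)),
      (∀ x ∈ L, x.1.IsPrime ∧ TG W x.1 ∧ J ≤ x.1) ∧ (L.map Prod.fst).prod ≤ J ∧
      ∀ p, Pos W p → ∀ q : ℝ, 0 < q → q < 1 →
        Hs (wt W p) J q = (L.map fun x => q ^ (x.2 p) * Hs (wt W p) x.1 q).sum := by
  induction J using WellFoundedGT.induction with
  | ind J ih =>
    by_cases ht : J = ⊤
    · refine ⟨[], by simp, ?_, ?_⟩
      · rw [ht]
        exact le_top
      · intro p _ q _ _
        rw [ht, Hs_top]
        simp
    by_cases hp : J.IsPrime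
    · refine ⟨[(J, fun _ => 0)], ?_, ?_, ?_⟩
      · intro x hx
        rw [List.mem_singleton] at hx
        rw [hx]
        exact ⟨hp, hJ, le_refl _⟩
      · simp
      · intro p _ q _ _
        simp
    obtain ⟨d, f, g, hf, hfJ, hgJ, hgf⟩ := witness W J hJ ht hp
    have hlt1 : J < J ⊔ Ideal.span {f} := by
      refine lt_of_le_of_ne le_sup_left fun h => hfJ ?_
      rw [h]
      exact Ideal.mem_sup_right (Ideal.mem_span_singleton_self f)
    have hle2 : J ≤ J.colon {f} := by
      intro h hh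
      rw [Base.mem_colon]
      exact J.mul_mem_right _ hh
    have hlt2 : J < J.colon {f} := by
      refine lt_of_le_of_ne hle2 fun h => hgJ ?_
      rw [h, Base.mem_colon]
      exact hgf
    obtain ⟨L₁, h11, h12, h13⟩ := ih _ hlt1 (TG_sup W hJ hf)
    obtain ⟨L₂, h21, h22, h23⟩ := ih _ hlt2 (TG_colon W hJ hf)
    refine ⟨L₁ ++ L₂.map fun x => (x.1, fun p => (pair d p).toNat + x.2 p), ?_, ?_, ?_⟩
    · intro x hx
      rw [List.mem_append, List.mem_map] at hx
      rcases hx with hx | ⟨y, hy, rfl⟩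
      · obtain ⟨h1, h2, h3⟩ := h11 x hx
        exact ⟨h1, h2, hlt1.le.trans h3⟩
      · obtain ⟨h1, h2, h3⟩ := h21 y hy
        exact ⟨h1, h2, hle2.trans h3⟩
    · rw [List.map_append, List.prod_append, List.map_map]
      have h1 : (Prod.fst ∘ fun x : Ideal (S σ) × ((ρ → ℤ) → ℕ) =>
          (x.1, fun p => (pair d p).toNat + x.2 p)) = Prod.fst := rfl
      rw [h1]
      refine (Ideal.mul_mono h12 h22).trans ?_
      rw [Ideal.mul_le]
      intro a ha b hb
      rw [Base.mem_colon] at hb
      obtain ⟨i, hi, j, hj, rfl⟩ := Submodule.mem_sup.1 ha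
      obtain ⟨c, rfl⟩ := Ideal.mem_span_singleton'.1 hj
      have h2 : (i + c * f) * b = b * i + c * (b * f) := by ring
      rw [h2]
      exact J.add_mem (J.mul_mem_left _ hi) (J.mul_mem_left _ hb)
    · intro p hp q hq0 hq1
      rw [Base.Hs_ex (wt W p) (Base.wt_pos W p hp) (Base.TG_Gr W p hp hJ) (Base.hom_wt W p hp hf)
        hq0.le hq1, h13 p hp q hq0 hq1, h23 p hp q hq0 hq1, List.map_append, List.sum_append,
        List.map_map, ← List.sum_map_mul_left]
      congr 2
      refine List.map_congr_left fun x _ => ?_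
      show q ^ (pair d p).toNat * (q ^ (x.2 p) * Hs (wt W p) x.1 q) =
        q ^ ((pair d p).toNat + x.2 p) * Hs (wt W p) x.1 q
      rw [pow_add]
      ring

end S1b

end Pool.Agent.KIR
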